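import Pool.Agent.U753.MK.Stm

/-! Project MK (helper753), package CE: conditional expectations on finite spin systems. -/

set_option autoImplicit false
set_option linter.unusedSectionVars false

open scoped BigOperators Matrix ComplexOrder Kronecker
open scoped Matrix.Norms.L2Operator

noncomputable section

namespace Pool.Agent.U913.MK.CE

open Pool.Agent.U753.MK

section product

variable {α β : Type} [Fintype α] [DecidableEq α] [Fintype β] [DecidableEq β]

/-- the partial trace over `β` -/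
def P (X : Matrix (α × β) (α × β) ℂ) : Matrix α α ℂ :=
  Matrix.of fun a a' => ∑ b, X (a, b) (a', b)

/-- the conditional expectation onto the operators on `α` -/
def F (X : Matrix (α × β) (α × β) ℂ) : Matrix (α × β) (α × β) ℂ :=
  ((Fintype.card β : ℂ)⁻¹ • P X) ⊗ₖ (1 : Matrix β β ℂ)

lemma P_add (X Y : Matrix (α × β) (α × β) ℂ) : P (X + Y) = P X + P Y := by
  ext a a'
  simp [P, Finset.sum_add_distrib]

lemma P_smul (c : ℂ) (X : Matrix (α × β) (α × β) ℂ) : P (c • X) = c • P X := by
  ext a a'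
  simp [P, Finset.mul_sum]

lemma P_star (X : Matrix (α × β) (α × β) ℂ) : P Xᴴ = (P X)ᴴ := by
  ext a a'
  simp [P, Matrix.conjTranspose_apply]

lemma P_kron (M : Matrix α α ℂ) :
    P (M ⊗ₖ (1 : Matrix β β ℂ)) = (Fintype.card β : ℂ) • M := by
  ext a a'
  simp [P, Matrix.kroneckerMap_apply]

lemma P_mul_kron (X : Matrix (α × β) (α × β) ℂ) (M : Matrix α α ℂ) :
    P (X * (M ⊗ₖ (1 : Matrix β β ℂ))) = P X * M := by
  ext a a'
  simp only [P, Matrix.of_apply, Matrix.mul_apply, Matrix.kroneckerMap_apply,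
    Fintype.sum_prod_type, Matrix.one_apply, mul_ite, mul_one, mul_zero, Finset.sum_ite_eq',
    Finset.mem_univ, if_true, Finset.sum_mul]
  rw [Finset.sum_comm]

lemma P_kron_mul (X : Matrix (α × β) (α × β) ℂ) (M : Matrix α α ℂ) :
    P ((M ⊗ₖ (1 : Matrix β β ℂ)) * X) = M * P X := by
  ext a a'
  simp only [P, Matrix.of_apply, Matrix.mul_apply, Matrix.kroneckerMap_apply,
    Fintype.sum_prod_type, Matrix.one_apply, mul_ite, mul_one, mul_zero, ite_mul, zero_mul,
    Finset.sum_ite_eq, Finset.mem_univ, if_true, Finset.mul_sum]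
  rw [Finset.sum_comm]

lemma trace_P (X : Matrix (α × β) (α × β) ℂ) : (P X).trace = X.trace := by
  simp [P, Matrix.trace, Fintype.sum_prod_type]

lemma F_isCE [Nonempty β] : IsCE (F : Matrix (α × β) (α × β) ℂ → Matrix (α × β) (α × β) ℂ) where
  add X Y := by rw [F, P_add, smul_add, Matrix.add_kronecker]; rfl
  smul c X := by rw [F, P_smul, smul_comm, Matrix.smul_kronecker]; rfl
  tr X := by
    have h : (Fintype.card β : ℂ) ≠ 0 := Nat.cast_ne_zero.2 Fintype.card_ne_zero
    rw [F, Matrix.trace_kronecker, Matrix.trace_one, Matrix.trace_smul, trace_P, smul_eq_mul]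
    field_simp
  star X := by
    rw [F, F, P_star, Matrix.conjTranspose_kronecker, Matrix.conjTranspose_smul,
      Matrix.conjTranspose_one]
    simp
  idem X := by
    have h : (Fintype.card β : ℂ) ≠ 0 := Nat.cast_ne_zero.2 Fintype.card_ne_zero
    have h1 : P (F X) = P X := by
      rw [F, P_kron, smul_smul, mul_inv_cancel₀ h, one_smul]
    rw [F, h1, F]
  mul_right X Y := by
    rw [F, F, P_mul_kron, F, ← Matrix.mul_kronecker_mul, mul_one, Matrix.smul_mul]
  mul_left X Y := by
    rw [F, F, P_kron_mul, F, ← Matrix.mul_kronecker_mul, mul_one, Matrix.mul_smul]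

lemma P_posDef [Nonempty β] {X : Matrix (α × β) (α × β) ℂ} (hX : X.PosDef) : (P X).PosDef := by
  have h : P X = ∑ b : β, X.submatrix (fun a => (a, b)) (fun a => (a, b)) := by
    ext a a'
    simp [P, Matrix.sum_apply]
  have h1 : ∀ b : β, (X.submatrix (fun a : α => (a, b)) (fun a => (a, b))).PosDef := fun b =>
    hX.submatrix fun a a' h => (Prod.mk.inj h).1
  obtain ⟨b0⟩ := (inferInstance : Nonempty β)
  rw [h, ← Finset.add_sum_erase _ _ (Finset.mem_univ b0)]
  exact (h1 b0).add_posSemidef (Matrix.posSemidef_sum _ fun b _ => (h1 b).posSemidef)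

lemma F_posDef [Nonempty β] {X : Matrix (α × β) (α × β) ℂ} (hX : X.PosDef) : (F X).PosDef := by
  refine Matrix.PosDef.kronecker ?_ Matrix.PosDef.one
  have h : (Fintype.card β : ℂ)⁻¹ = (((Fintype.card β : ℝ)⁻¹ : ℝ) : ℂ) := by simp
  rw [h]
  exact (P_posDef hX).smul (Complex.zero_lt_real.2 (inv_pos.2 (Nat.cast_pos.2 Fintype.card_pos)))

end product

section sums

variable {V : Type} [Fintype V] [DecidableEq V] {d : ℕ}

lemma mix_mix (A B : Finset V) (s w w' : V → Fin d) :
    mix B (mix A s w) w' = mix (A ∩ B) s (mix B w w') := by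
  funext v
  simp only [mix, Finset.mem_inter]
  by_cases h1 : v ∈ A <;> by_cases h2 : v ∈ B <;> simp [h1, h2]

/-- `w` is uniformly distributed for uniformly distributed `(w, w')` -/
lemma sum_mix (B : Finset V) (f : (V → Fin d) → ℂ) :
    ∑ w : V → Fin d, ∑ w' : V → Fin d, f (mix B w w') =
      ((d : ℂ) ^ Fintype.card V) * ∑ w, f w := by
  have hinv : ∀ q : (V → Fin d) × (V → Fin d),
      (mix B (mix B q.1 q.2) (mix B q.2 q.1), mix B (mix B q.2 q.1) (mix B q.1 q.2)) = q := by
    rintro ⟨w, w'⟩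
    refine Prod.ext ?_ ?_ <;> funext v <;> by_cases h : v ∈ B <;> simp [mix, h]
  let e : (V → Fin d) × (V → Fin d) ≃ (V → Fin d) × (V → Fin d) :=
    { toFun := fun q => (mix B q.1 q.2, mix B q.2 q.1)
      invFun := fun q => (mix B q.1 q.2, mix B q.2 q.1)
      left_inv := hinv
      right_inv := hinv }
  have h1 : ∑ q : (V → Fin d) × (V → Fin d), f (mix B q.1 q.2) =
      ∑ q : (V → Fin d) × (V → Fin d), f q.1 := Equiv.sum_comp e fun q => f q.1
  rw [Fintype.sum_prod_type, Fintype.sum_prod_type] at h1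
  rw [h1]
  simp [Finset.mul_sum]

lemma comp_law (hd : 0 < d) (A B : Finset V) (X : Matrix (V → Fin d) (V → Fin d) ℂ) :
    cexp A (cexp B X) = cexp (A ∩ B) X := by
  have hc : ((d : ℂ) ^ Fintype.card V) ≠ 0 := pow_ne_zero _ (Nat.cast_ne_zero.2 hd.ne')
  ext s t
  simp only [cexp, Matrix.of_apply]
  have hw : ∀ w : V → Fin d, (∀ v, v ∉ B → mix A s w v = mix A t w v) ↔
      (∀ v ∈ A, v ∉ B → s v = t v) := by
    intro w
    constructor
    · intro h v hA hB
      have := h v hB
      simpa [mix, hA] using this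
    · intro h v hB
      by_cases hA : v ∈ A
      · simpa [mix, hA] using h v hA hB
      · simp [mix, hA]
  by_cases h1 : ∀ v, v ∉ A ∩ B → s v = t v
  · have h2 : ∀ v, v ∉ A → s v = t v := fun v hv => h1 v fun h => hv (Finset.mem_inter.1 h).1
    have h3 : ∀ v ∈ A, v ∉ B → s v = t v := fun v _ hv => h1 v fun h => hv (Finset.mem_inter.1 h).2
    rw [if_pos h2, if_pos h1]
    congr 1
    have h4 : ∀ w : V → Fin d, (if ∀ v, v ∉ B → mix A s w v = mix A t w v then
        ((d : ℂ) ^ Fintype.card V)⁻¹ * ∑ w', X (mix B (mix A s w) w') (mix B (mix A t w) w')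
        else 0) = ((d : ℂ) ^ Fintype.card V)⁻¹ *
          ∑ w', X (mix (A ∩ B) s (mix B w w')) (mix (A ∩ B) t (mix B w w')) := by
      intro w
      rw [if_pos ((hw w).2 h3)]
      simp only [mix_mix]
    rw [Finset.sum_congr rfl fun w _ => h4 w, ← Finset.mul_sum,
      sum_mix B (fun u => X (mix (A ∩ B) s u) (mix (A ∩ B) t u)), ← mul_assoc,
      inv_mul_cancel₀ hc, one_mul]
  · rw [if_neg h1]
    by_cases h2 : ∀ v, v ∉ A → s v = t v
    · rw [if_pos h2]
      have h3 : ¬ ∀ v ∈ A, v ∉ B → s v = t v := by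
        intro h3
        apply h1
        intro v hv
        by_cases hA : v ∈ A
        · exact h3 v hA fun hB => hv (Finset.mem_inter.2 ⟨hA, hB⟩)
        · exact h2 v hA
      have h4 : ∀ w : V → Fin d, (if ∀ v, v ∉ B → mix A s w v = mix A t w v then
          ((d : ℂ) ^ Fintype.card V)⁻¹ * ∑ w', X (mix B (mix A s w) w') (mix B (mix A t w) w')
          else 0) = 0 := fun w => if_neg fun h => h3 ((hw w).1 h)
      rw [Finset.sum_congr rfl fun w _ => h4 w, Finset.sum_const_zero, mul_zero]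
    · rw [if_neg h2]

lemma cexp_univ (hd : 0 < d) (X : Matrix (V → Fin d) (V → Fin d) ℂ) : cexp Finset.univ X = X := by
  have hc : ((d : ℂ) ^ Fintype.card V) ≠ 0 := pow_ne_zero _ (Nat.cast_ne_zero.2 hd.ne')
  ext s t
  have h : ∀ s w : V → Fin d, mix Finset.univ s w = s := fun s w => by
    funext v; simp [mix]
  simp only [cexp, Matrix.of_apply, h]
  rw [if_pos (by simp)]
  simp only [Finset.sum_const, Finset.card_univ, Fintype.card_fun, Fintype.card_fin, nsmul_eq_mul,
    Nat.cast_pow]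
  rw [← mul_assoc, inv_mul_cancel₀ hc, one_mul]

lemma cexp_empty (X : Matrix (V → Fin d) (V → Fin d) ℂ) :
    cexp ∅ X = (X.trace * ((d : ℂ) ^ Fintype.card V)⁻¹) • (1 : Matrix (V → Fin d) (V → Fin d) ℂ) := by
  ext s t
  have h : ∀ s w : V → Fin d, mix ∅ s w = w := fun s w => by
    funext v; simp [mix]
  simp only [cexp, Matrix.of_apply, h, Matrix.smul_apply, Matrix.one_apply, smul_eq_mul]
  by_cases hst : s = t
  · subst hst
    rw [if_pos (fun _ _ => rfl), if_pos rfl, mul_one, mul_comm]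
    rfl
  · rw [if_neg (fun h => hst (funext fun v => h v (by simp))), if_neg hst, mul_zero]

end sums

section transport

variable {V : Type} [Fintype V] [DecidableEq V] {d : ℕ} (A : Finset V)

/-- the splitting of a configuration -/
abbrev eA (d : ℕ) (A : Finset V) : (V → Fin d) ≃
    ({v // v ∈ A} → Fin d) × ({v // ¬ v ∈ A} → Fin d) :=
  Equiv.piEquivPiSubtypeProd (fun v => v ∈ A) fun _ => Fin d

lemma cexp_eq (hd : 0 < d) (X : Matrix (V → Fin d) (V → Fin d) ℂ) :
    cexp A X = (F (X.submatrix (eA d A).symm (eA d A).symm)).submatrix (eA d A) (eA d A) := by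
  have hc : (d : ℂ) ≠ 0 := Nat.cast_ne_zero.2 hd.ne'
  ext s t
  have hmix : ∀ (s : V → Fin d) (q : ({v // v ∈ A} → Fin d) × ({v // ¬ v ∈ A} → Fin d)),
      mix A s ((eA d A).symm q) = (eA d A).symm ((eA d A s).1, q.2) := by
    intro s q
    funext v
    by_cases hv : v ∈ A <;> simp [mix, hv]
  have hsum : ∑ w : V → Fin d, X (mix A s w) (mix A t w) =
      (Fintype.card ({v // v ∈ A} → Fin d) : ℂ) * ∑ b : {v // ¬ v ∈ A} → Fin d,
        X ((eA d A).symm ((eA d A s).1, b)) ((eA d A).symm ((eA d A t).1, b)) := by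
    rw [← Equiv.sum_comp (eA d A).symm]
    simp only [hmix, Fintype.sum_prod_type, Finset.sum_const, Finset.card_univ, nsmul_eq_mul]
  have hcard : ((d : ℂ) ^ Fintype.card V) = (Fintype.card ({v // v ∈ A} → Fin d) : ℂ) *
      (Fintype.card ({v // ¬ v ∈ A} → Fin d) : ℂ) := by
    rw [← Nat.cast_mul, ← Fintype.card_prod, ← Fintype.card_congr (eA d A)]
    simp
  have hA : (Fintype.card ({v // v ∈ A} → Fin d) : ℂ) ≠ 0 := by simp [hc]
  simp only [cexp, Matrix.of_apply, F, Matrix.submatrix_apply, Matrix.kroneckerMap_apply, P,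
    Matrix.smul_apply, smul_eq_mul, Matrix.one_apply]
  by_cases h : ∀ v, v ∉ A → s v = t v
  · rw [if_pos h, if_pos (by funext v; exact h v v.2), mul_one, hsum, hcard]
    field_simp
  · rw [if_neg h, if_neg, mul_zero]
    intro h2
    apply h
    intro v hv
    exact congrFun h2 ⟨v, hv⟩

lemma trace_sub {m n : Type} [Fintype m] [Fintype n] (e : m ≃ n) (M : Matrix n n ℂ) :
    (M.submatrix e e).trace = M.trace := Equiv.sum_comp e fun i => M i i

lemma cexp_isCE (hd : 0 < d) : IsCE (cexp (d := d) A) := by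
  have : Nonempty (Fin d) := ⟨⟨0, hd⟩⟩
  have hF := F_isCE (α := {v // v ∈ A} → Fin d) (β := {v // ¬ v ∈ A} → Fin d)
  have hsub : ∀ X : Matrix (V → Fin d) (V → Fin d) ℂ,
      (cexp A X).submatrix (eA d A).symm (eA d A).symm =
        F (X.submatrix (eA d A).symm (eA d A).symm) := by
    intro X
    rw [cexp_eq A hd X, Matrix.submatrix_submatrix]
    simp
  have hmul : ∀ X Y : Matrix (V → Fin d) (V → Fin d) ℂ,
      (X * Y).submatrix (eA d A).symm (eA d A).symm =
        X.submatrix (eA d A).symm (eA d A).symm * Y.submatrix (eA d A).symm (eA d A).symm :=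
    fun X Y => (Matrix.submatrix_mul_equiv X Y _ _ _).symm
  have hmul' : ∀ X Y : Matrix (({v // v ∈ A} → Fin d) × ({v // ¬ v ∈ A} → Fin d))
      (({v // v ∈ A} → Fin d) × ({v // ¬ v ∈ A} → Fin d)) ℂ,
      (X * Y).submatrix (eA d A) (eA d A) =
        X.submatrix (eA d A) (eA d A) * Y.submatrix (eA d A) (eA d A) :=
    fun X Y => (Matrix.submatrix_mul_equiv X Y _ _ _).symm
  refine ⟨fun X Y => ?_, fun c X => ?_, fun X => ?_, fun X => ?_, fun X => ?_, fun X Y => ?_,
    fun X Y => ?_⟩
  · have h1 : (X + Y).submatrix (eA d A).symm (eA d A).symm =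
        X.submatrix (eA d A).symm (eA d A).symm + Y.submatrix (eA d A).symm (eA d A).symm := rfl
    rw [cexp_eq A hd (X + Y), h1, hF.add, cexp_eq A hd X, cexp_eq A hd Y]
    rfl
  · have h1 : (c • X).submatrix (eA d A).symm (eA d A).symm =
        c • X.submatrix (eA d A).symm (eA d A).symm := rfl
    rw [cexp_eq A hd (c • X), h1, hF.smul, cexp_eq A hd X]
    rfl
  · rw [cexp_eq A hd, trace_sub, hF.tr, trace_sub]
  · rw [cexp_eq A hd, ← Matrix.conjTranspose_submatrix, hF.star, ← Matrix.conjTranspose_submatrix,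
      ← cexp_eq A hd]
  · rw [comp_law hd, Finset.inter_self]
  · rw [cexp_eq A hd (X * cexp A Y), hmul, hsub, hF.mul_right, hmul', ← cexp_eq A hd,
      ← cexp_eq A hd]
  · rw [cexp_eq A hd (cexp A X * Y), hmul, hsub, hF.mul_left, hmul', ← cexp_eq A hd,
      ← cexp_eq A hd]

lemma cexp_posDef (hd : 0 < d) (X : Matrix (V → Fin d) (V → Fin d) ℂ) (hX : X.PosDef) :
    (cexp A X).PosDef := by
  have : Nonempty (Fin d) := ⟨⟨0, hd⟩⟩
  rw [cexp_eq A hd X]
  exact (F_posDef (hX.submatrix (eA d A).symm.injective)).submatrix (eA d A).injective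

end transport

theorem t_cexp : StmCexp := by
  intro V _ _ d hd
  exact ⟨fun A => cexp_isCE A hd, fun A B X => comp_law hd A B X,
    fun A X hX => cexp_posDef A hd X hX, fun X => cexp_univ hd X, fun X => cexp_empty X⟩

end Pool.Agent.U913.MK.CE
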